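import Pool.Agent.H490R3.RZ.Stmts

set_option autoImplicit false

open MeasureTheory Set

namespace Pool.Agent.H490R3.RZ

open Pool.Agent.Helper557.Rz

namespace Bas

variable {d : ℕ} {μ : Set (E d) → ENNReal}

theorem mono (h : IsInv d μ) {A B : Set (E d)} (hA : MeasurableSet A) (hB : MeasurableSet B)
    (hAB : A ⊆ B) : μ A ≤ μ B := by
  have h1 := h.add A (B \ A) hA (hB.diff hA) disjoint_sdiff_right
  rw [union_sdiff_cancel hAB] at h1
  rw [h1]
  exact le_self_add

theorem union_le (h : IsInv d μ) {A B : Set (E d)} (hA : MeasurableSet A)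
    (hB : MeasurableSet B) : μ (A ∪ B) ≤ μ A + μ B := by
  have h1 := h.add A (B \ A) hA (hB.diff hA) disjoint_sdiff_right
  rw [union_sdiff_self] at h1
  rw [h1]
  exact add_le_add_right (mono h (hB.diff hA) hB sdiff_subset) _

theorem biUnion_le (h : IsInv d μ) {ι : Type} (s : Finset ι) (A : ι → Set (E d))
    (hA : ∀ i, MeasurableSet (A i)) : μ (⋃ i ∈ s, A i) ≤ ∑ i ∈ s, μ (A i) := by
  classical
  induction s using Finset.induction_on with
  | empty => simp [h.empty]
  | insert a s ha ih =>
    rw [Finset.set_biUnion_insert, Finset.sum_insert ha]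
    refine (union_le h (hA a) (s.measurableSet_biUnion fun i _ => hA i)).trans ?_
    exact add_le_add_right ih _

theorem biUnion_eq (h : IsInv d μ) (A : ℕ → Set (E d)) (hA : ∀ i, MeasurableSet (A i))
    (hd : ∀ i j, i ≠ j → Disjoint (A i) (A j)) (N : ℕ) :
    μ (⋃ i ∈ Finset.range N, A i) = ∑ i ∈ Finset.range N, μ (A i) := by
  induction N with
  | zero => simp [h.empty]
  | succ N ih =>
    have hN : N ∉ Finset.range N := by simp
    rw [Finset.range_add_one, Finset.set_biUnion_insert, Finset.sum_insert hN,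
      h.add _ _ (hA N) ((Finset.range N).measurableSet_biUnion fun i _ => hA i) ?_, ih]
    rw [Set.disjoint_iUnion₂_right]
    intro i hi
    exact hd N i (by rintro rfl; exact hN hi)

theorem closedBall_eq (h : IsInv d μ) (p q : E d) (r : ℝ) :
    μ (Metric.closedBall p r) = μ (Metric.closedBall q r) := by
  have h1 := h.inv (IsometryEquiv.addRight (p - q)) (Metric.closedBall q r)
    Metric.isClosed_closedBall.measurableSet
  rw [IsometryEquiv.image_closedBall] at h1
  rw [← h1]
  congr 2
  simp

theorem closedBall_le_one (h : IsInv d μ) (p : E d) : μ (Metric.closedBall p (1 / 2)) ≤ 1 := by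
  set c : E d := WithLp.toLp 2 (fun _ => (1 / 2 : ℝ)) with hc
  rw [closedBall_eq h p c, ← h.cube]
  have hcl : IsClosed {x : E d | ∀ i, 0 ≤ x i ∧ x i ≤ 1} := by
    have : {x : E d | ∀ i, 0 ≤ x i ∧ x i ≤ 1} = ⋂ i, {x : E d | 0 ≤ x i ∧ x i ≤ 1} := by
      ext x; simp
    rw [this]
    refine isClosed_iInter fun i => ?_
    have hci : Continuous fun x : E d => x i := by fun_prop
    exact (isClosed_le continuous_const hci).inter (isClosed_le hci continuous_const)
  refine mono h Metric.isClosed_closedBall.measurableSet hcl.measurableSet fun x hx i => ?_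
  rw [Metric.mem_closedBall, dist_eq_norm] at hx
  have h1 : |x i - 1 / 2| ≤ 1 / 2 := by
    have h2 := (PiLp.norm_apply_le (x - c) i).trans hx
    simpa [hc] using h2
  rw [abs_le] at h1
  constructor <;> linarith

end Bas

open Bas in
theorem t_basic : P_basic := by
  intro d hd μ h
  have hball : ∀ R : ℝ, μ (Metric.ball (0 : E d) R) ≠ ⊤ := by
    intro R
    obtain ⟨t, -, htf, ht⟩ := (isCompact_closedBall (0 : E d) R).finite_cover_balls
      (e := 1 / 2) (by norm_num)
    have h1 : Metric.ball (0 : E d) R ⊆ ⋃ p ∈ htf.toFinset, Metric.closedBall p (1 / 2) := by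
      intro x hx
      have h2 := ht (Metric.ball_subset_closedBall hx)
      simp only [mem_iUnion] at h2 ⊢
      obtain ⟨p, hp, hxp⟩ := h2
      exact ⟨p, by simpa using hp, Metric.ball_subset_closedBall hxp⟩
    have h2 := (mono h Metric.isOpen_ball.measurableSet
      (htf.toFinset.measurableSet_biUnion fun p _ => Metric.isClosed_closedBall.measurableSet)
      h1).trans (biUnion_le h _ _ fun p => Metric.isClosed_closedBall.measurableSet)
    have h3 : ∑ p ∈ htf.toFinset, μ (Metric.closedBall p (1 / 2)) ≤ ∑ p ∈ htf.toFinset, 1 :=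
      Finset.sum_le_sum fun p _ => closedBall_le_one h p
    rw [Finset.sum_const, nsmul_eq_mul, mul_one] at h3
    exact ne_top_of_le_ne_top (ENNReal.natCast_ne_top _) (h2.trans h3)
  refine ⟨fun A B hA hB hAB => mono h hA hB hAB, hball, ?_⟩
  intro ε hε
  set M := μ (Metric.ball (0 : E d) 2) with hM
  obtain ⟨N, hN⟩ := exists_nat_gt (M.toReal / ε)
  have hN0 : 0 < N := by
    rcases Nat.eq_zero_or_pos N with h0 | h0
    · subst h0
      have : 0 ≤ M.toReal / ε := by positivity
      simp at hN
      linarith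
    · exact h0
  have hNR : (0 : ℝ) < N := by exact_mod_cast hN0
  refine ⟨1 / (4 * N), by positivity, fun p => ?_⟩
  set r : ℝ := 1 / (4 * N) with hr
  set v : E d := EuclideanSpace.single (⟨0, hd⟩ : Fin d) (1 : ℝ) with hv
  have hvn : ‖v‖ = 1 := by rw [hv]; simp
  -- the disjoint balls
  set A : ℕ → Set (E d) := fun a => Metric.closedBall (((a : ℝ) / N) • v) r with hA
  have hdist : ∀ a b : ℕ, dist (((a : ℝ) / N) • v) (((b : ℝ) / N) • v) = |(a : ℝ) - b| / N := by
    intro a b
    rw [dist_eq_norm, ← sub_smul, norm_smul, hvn, mul_one, Real.norm_eq_abs, ← sub_div, abs_div,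
      abs_of_pos hNR]
  have hdisj : ∀ a b : ℕ, a ≠ b → Disjoint (A a) (A b) := by
    intro a b hab
    refine Metric.closedBall_disjoint_closedBall ?_
    rw [hdist]
    have h1 : (1 : ℝ) ≤ |(a : ℝ) - b| := by
      have h2 : (a : ℤ) - b ≠ 0 := by omega
      have h3 := Int.one_le_abs h2
      exact_mod_cast h3
    have h2 : r + r < 1 / N := by
      rw [hr, ← add_div, div_lt_div_iff₀ (by positivity) hNR]
      nlinarith
    refine h2.trans_le ?_
    exact div_le_div_of_nonneg_right h1 hNR.le
  have h1 := biUnion_eq h A (fun a => Metric.isClosed_closedBall.measurableSet) hdisj N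
  have h2 : ∑ a ∈ Finset.range N, μ (A a) = (N : ENNReal) * μ (Metric.closedBall p r) := by
    rw [Finset.sum_congr rfl fun a _ => closedBall_eq h _ p r, Finset.sum_const,
      Finset.card_range, nsmul_eq_mul]
  have h3 : (⋃ a ∈ Finset.range N, A a) ⊆ Metric.ball (0 : E d) 2 := by
    intro x hx
    simp only [mem_iUnion, Finset.mem_range] at hx
    obtain ⟨a, ha, hxa⟩ := hx
    rw [Metric.mem_ball]
    have h4 : dist x (((a : ℝ) / N) • v) ≤ r := hxa
    have h5 := hdist a 0
    simp only [Nat.cast_zero, zero_div, zero_smul, sub_zero] at h5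
    have h6 : |(a : ℝ)| / N < 1 := by
      rw [div_lt_one hNR, abs_of_nonneg (Nat.cast_nonneg a)]
      exact_mod_cast ha
    have h7 : r ≤ 1 := by
      rw [hr, div_le_one (by positivity)]
      have : (1 : ℝ) ≤ N := by exact_mod_cast hN0
      linarith
    have := dist_triangle x (((a : ℝ) / N) • v) 0
    linarith
  have h4 : (N : ENNReal) * μ (Metric.closedBall p r) ≤ M := by
    rw [← h2, ← h1]
    exact mono h ((Finset.range N).measurableSet_biUnion fun a _ =>
      Metric.isClosed_closedBall.measurableSet) Metric.isOpen_ball.measurableSet h3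
  have hMt : M ≠ ⊤ := hball 2
  have hNe : (N : ENNReal) ≠ 0 := by exact_mod_cast hN0.ne'
  have h5 : M ≤ (N : ENNReal) * ENNReal.ofReal ε := by
    have h6 : M.toReal ≤ N * ε := by
      rw [div_lt_iff₀ hε] at hN
      exact hN.le
    rw [← ENNReal.ofReal_toReal hMt]
    refine (ENNReal.ofReal_le_ofReal h6).trans ?_
    rw [ENNReal.ofReal_mul hNR.le, ENNReal.ofReal_natCast]
  exact (ENNReal.mul_le_mul_iff_right hNe (ENNReal.natCast_ne_top N)).1 (h4.trans h5)

end Pool.Agent.H490R3.RZ
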