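import Pool.Agent.H490R3.RZ.Stmts

set_option autoImplicit false

open MeasureTheory Set Topology

namespace Pool.Agent.H490R3.RZ

open Pool.Agent.Helper557.Rz

namespace Drain

/-- the local flow around one radius -/
lemma local_flow {d k : ℕ} (g : Fin k → Iso d) {C : ℝ} (hC : 0 < C) (hF : Flow d k g C)
    {K : Set (E d)} (hK : IsClosed K) {r : ℝ} (hr : sg d (sl K r) ≤ ENNReal.ofReal (1 / 8)) :
    ∃ V : Set ℝ, IsOpen V ∧ r ∈ V ∧ ∃ F : Fin k → E d → ℝ, (∀ i, Measurable (F i)) ∧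
      (∀ i x, |F i x| ≤ 2 * C) ∧
      ∀ x ∈ K, ‖x‖ ∈ V → x ≠ 0 → ∑ i, (F i (g i x) - F i x) ≤ -1 := by
  have hcl : IsClosed (sl K r) := by
    apply hK.preimage
    fun_prop
  obtain ⟨f, hf1, hf2⟩ := hF (sl K r) hcl hr
  set h : S d → ℝ := fun ω => ∑ i, (f i (rot (g i) ω) - f i ω) with hh
  have hcont : Continuous h := by
    apply continuous_finsetSum
    intro i _
    exact ((f i).continuous.comp (rot_continuous (g i))).sub (f i).continuous
  set Z : Set (ℝ × S d) := {p | p.1 • (p.2 : E d) ∈ K ∧ -(1 / 2) ≤ h p.2} with hZ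
  have hZc : IsClosed Z := by
    apply IsClosed.inter
    · apply hK.preimage
      fun_prop
    · exact isClosed_le continuous_const (hcont.comp continuous_snd)
  have hproj : IsClosed (Prod.fst '' Z) := isClosedMap_fst_of_compactSpace Z hZc
  refine ⟨(Prod.fst '' Z)ᶜ, hproj.isOpen_compl, ?_, ?_⟩
  · rintro ⟨⟨r', ω⟩, ⟨h1, h2⟩, rfl⟩
    have h3 := hf2 ω h1
    have h4 : h ω ≤ -1 := h3
    simp only at h2
    linarith
  have hext : ∀ i, ∃ F : C(E d, ℝ), F.restrict (Metric.sphere (0 : E d) 1) = f i := fun i =>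
    ContinuousMap.exists_restrict_eq Metric.isClosed_sphere (f i)
  choose F hFr using hext
  have hval : ∀ i (ω : S d), F i (ω : E d) = f i ω := by
    intro i ω
    rw [← hFr i]
    rfl
  refine ⟨fun i x => 2 * max (-C) (min C (F i (‖x‖⁻¹ • x))), ?_, ?_, ?_⟩
  · intro i
    have h1 : Measurable (fun x : E d => ‖x‖⁻¹ • x) := by fun_prop
    have h2 : Measurable (fun x : E d => F i (‖x‖⁻¹ • x)) := (F i).continuous.measurable.comp h1
    exact (measurable_const.max (measurable_const.min h2)).const_mul 2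
  · intro i x
    rw [abs_mul, abs_of_pos (by norm_num : (0 : ℝ) < 2)]
    apply mul_le_mul_of_nonneg_left _ (by norm_num)
    rw [abs_le]
    exact ⟨le_max_left _ _, max_le (by linarith) (min_le_left _ _)⟩
  · intro x hx hxV hx0
    have hn : ‖x‖ ≠ 0 := norm_ne_zero_iff.mpr hx0
    obtain ⟨ω, hω⟩ : ∃ ω : S d, (ω : E d) = ‖x‖⁻¹ • x := by
      refine ⟨⟨‖x‖⁻¹ • x, ?_⟩, rfl⟩
      rw [mem_sphere_zero_iff_norm, norm_smul, norm_inv, norm_norm, inv_mul_cancel₀ hn]
    have hxω : ‖x‖ • (ω : E d) = x := by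
      rw [hω, smul_smul, mul_inv_cancel₀ hn, one_smul]
    have hhω : h ω < -(1 / 2) := by
      by_contra hcon
      push Not at hcon
      apply hxV
      refine ⟨(‖x‖, ω), ⟨?_, hcon⟩, rfl⟩
      simp only
      rw [hxω]
      exact hx
    have clip : ∀ i (ω' : S d), max (-C) (min C (f i ω')) = f i ω' := by
      intro i ω'
      have := abs_le.mp (hf1 i ω')
      rw [min_eq_right this.2, max_eq_right this.1]
    have e1 : ∀ i, 2 * max (-C) (min C (F i (‖x‖⁻¹ • x))) = 2 * f i ω := by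
      intro i
      rw [← hω, hval, clip]
    have e2 : ∀ i, 2 * max (-C) (min C (F i (‖g i x‖⁻¹ • g i x))) = 2 * f i (rot (g i) ω) := by
      intro i
      have : ‖g i x‖⁻¹ • g i x = (rot (g i) ω : E d) := by
        rw [rot_coe, LinearIsometryEquiv.norm_map, hω, map_smul]
      rw [this, hval, clip]
    simp only [e1, e2]
    have e3 : ∑ i, (2 * f i (rot (g i) ω) - 2 * f i ω) = 2 * h ω := by
      rw [hh]
      simp only
      rw [Finset.mul_sum]
      apply Finset.sum_congr rfl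
      intro i _
      ring
    rw [e3]
    linarith

end Drain

theorem t_drain : P_drain := by
  intro d k g C hd hC hF K I hK hI hIpos hthin
  have key : ∃ J : Set ℝ, MeasurableSet J ∧ I ⊆ J ∧ ∃ F : Fin k → E d → ℝ,
      (∀ i, Measurable (F i)) ∧ (∀ i x, |F i x| ≤ 2 * C) ∧
      ∀ x ∈ K, ‖x‖ ∈ J → x ≠ 0 → ∑ i, (F i (g i x) - F i x) ≤ -1 := by
    refine IsCompact.induction_on (p := fun I' : Set ℝ => ∃ J : Set ℝ, MeasurableSet J ∧ I' ⊆ J ∧
      ∃ F : Fin k → E d → ℝ, (∀ i, Measurable (F i)) ∧ (∀ i x, |F i x| ≤ 2 * C) ∧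
      ∀ x ∈ K, ‖x‖ ∈ J → x ≠ 0 → ∑ i, (F i (g i x) - F i x) ≤ -1) hI ?_ ?_ ?_ ?_
    · refine ⟨∅, MeasurableSet.empty, Subset.rfl, fun _ _ => 0, fun _ => measurable_const, ?_, ?_⟩
      · intro i x
        simp only [abs_zero]
        positivity
      · intro x _ h
        exact absurd h (notMem_empty _)
    · rintro s t hst ⟨J, hJ, htJ, F, h⟩
      exact ⟨J, hJ, hst.trans htJ, F, h⟩
    · classical
      rintro s t ⟨J, hJ, hsJ, F, hF1, hF2, hF3⟩ ⟨J', hJ', htJ', F', hF1', hF2', hF3'⟩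
      refine ⟨J ∪ J', hJ.union hJ', union_subset_union hsJ htJ',
        fun i x => if ‖x‖ ∈ J then F i x else F' i x, ?_, ?_, ?_⟩
      · intro i
        exact Measurable.ite (measurable_norm hJ) (hF1 i) (hF1' i)
      · intro i x
        show |(if ‖x‖ ∈ J then F i x else F' i x)| ≤ 2 * C
        split_ifs
        · exact hF2 i x
        · exact hF2' i x
      · intro x hx hxJ hx0
        simp only [LinearIsometryEquiv.norm_map]
        by_cases hxJ1 : ‖x‖ ∈ J
        · simp only [hxJ1, if_true]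
          exact hF3 x hx hxJ1 hx0
        · simp only [hxJ1, if_false]
          exact hF3' x hx (hxJ.resolve_left hxJ1) hx0
    · intro r hr
      obtain ⟨V, hV, hrV, F, h⟩ := Drain.local_flow g hC hF hK (hthin r hr)
      exact ⟨V, mem_nhdsWithin_of_mem_nhds (hV.mem_nhds hrV), V, hV.measurableSet, Subset.rfl,
        F, h⟩
  obtain ⟨J, hJ, hIJ, F, hF1, hF2, hF3⟩ := key
  refine ⟨F, hF1, hF2, ?_⟩
  intro x hx hxI
  refine hF3 x hx (hIJ hxI) ?_
  have := hIpos _ hxI
  exact norm_pos_iff.mp this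

end Pool.Agent.H490R3.RZ
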