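import Pool.Agent.H490R3.RZ.Stmts

/-!
# H490-RZ: exhaustion of an open set of a metric space by closed sets of small measure
(adapted from `Helper557.Rz.exhaust`)
-/

set_option autoImplicit false

open MeasureTheory Set

namespace Pool.Agent.H490R3.RZ

theorem t_exh : P_exh := by
  classical
  intro X _ _ _ μ U hU η hη h0 hUne
  have hne : (Uᶜ : Set X).Nonempty := Set.nonempty_compl.2 hUne
  have hcl : IsClosed Uᶜ := hU.isClosed_compl
  have hD : ∀ x, x ∈ U ↔ 0 < Metric.infDist x Uᶜ := by
    intro x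
    rw [← hcl.notMem_iff_infDist_pos hne, Set.notMem_compl_iff]
  have hDc : Continuous (fun x : X => Metric.infDist x Uᶜ) := Metric.continuous_infDist_pt _
  -- small shells
  have hsmall : ∀ k, ∃ ρ : ℝ, 0 < ρ ∧
      μ {x | 0 < Metric.infDist x Uᶜ ∧ Metric.infDist x Uᶜ ≤ ρ} ≤ ENNReal.ofReal (η k) := by
    intro k
    have hmeas : ∀ r : ℝ, MeasurableSet {x : X | 0 < Metric.infDist x Uᶜ ∧
        Metric.infDist x Uᶜ ≤ r} := by
      intro r
      exact (measurableSet_lt measurable_const hDc.measurable).inter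
        (measurableSet_le hDc.measurable measurable_const)
    have hlim := tendsto_measure_iInter_atTop (μ := μ)
      (s := fun n : ℕ => {x : X | 0 < Metric.infDist x Uᶜ ∧
        Metric.infDist x Uᶜ ≤ 1 / ((n : ℝ) + 1)})
      (fun n => (hmeas _).nullMeasurableSet)
      (by
        intro m n hmn x hx
        refine ⟨hx.1, hx.2.trans ?_⟩
        have : (m : ℝ) ≤ n := by exact_mod_cast hmn
        exact one_div_le_one_div_of_le (by positivity) (by linarith))
      ⟨0, ne_top_of_le_ne_top ENNReal.ofReal_ne_top ((measure_mono (fun x hx =>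
        (hD x).2 hx.1)).trans h0)⟩
    have hempty : (⋂ n : ℕ, {x : X | 0 < Metric.infDist x Uᶜ ∧
        Metric.infDist x Uᶜ ≤ 1 / ((n : ℝ) + 1)}) = ∅ := by
      rw [Set.eq_empty_iff_forall_notMem]
      intro x hx
      rw [Set.mem_iInter] at hx
      obtain ⟨n, hn⟩ := exists_nat_one_div_lt (hx 0).1
      exact absurd (hx n).2 (not_le.2 hn)
    rw [hempty, measure_empty] at hlim
    have hpos : (0 : ENNReal) < ENNReal.ofReal (η k) := ENNReal.ofReal_pos.2 (hη k)
    obtain ⟨n, hn⟩ := (hlim.eventually (gt_mem_nhds hpos)).exists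
    exact ⟨1 / ((n : ℝ) + 1), by positivity, hn.le⟩
  choose ρ hρ0 hρ using hsmall
  obtain ⟨r, hr0, hrs⟩ : ∃ r : ℕ → ℝ, r 0 = min (ρ 0) 1 ∧
      ∀ k, r (k + 1) = min (r k) (min (ρ (k + 1)) (1 / ((k : ℝ) + 2))) :=
    ⟨fun k => Nat.rec (min (ρ 0) 1) (fun k v => min v (min (ρ (k + 1)) (1 / ((k : ℝ) + 2)))) k,
      rfl, fun k => rfl⟩
  have hrpos : ∀ k, 0 < r k := by
    intro k
    induction k with
    | zero => rw [hr0]; exact lt_min (hρ0 0) one_pos
    | succ k ih => rw [hrs]; exact lt_min ih (lt_min (hρ0 _) (by positivity))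
  have hrρ : ∀ k, r k ≤ ρ k := by
    intro k
    cases k with
    | zero => rw [hr0]; exact min_le_left _ _
    | succ k => rw [hrs]; exact (min_le_right _ _).trans (min_le_left _ _)
  have hr1 : ∀ k : ℕ, r (k + 1) ≤ 1 / ((k : ℝ) + 2) := by
    intro k
    rw [hrs]
    exact (min_le_right _ _).trans (min_le_right _ _)
  refine ⟨fun k => if k = 0 then {x | r 1 ≤ Metric.infDist x Uᶜ} else
    {x | r (k + 1) ≤ Metric.infDist x Uᶜ ∧ Metric.infDist x Uᶜ ≤ r k}, ?_, ?_, ?_⟩
  · intro k
    by_cases hk : k = 0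
    · simp only [hk, if_true]
      exact isClosed_le continuous_const hDc
    · simp only [hk, if_false]
      exact (isClosed_le continuous_const hDc).inter (isClosed_le hDc continuous_const)
  · intro k
    by_cases hk : k = 0
    · simp only [hk, if_true]
      refine le_trans (measure_mono ?_) h0
      intro x hx
      exact (hD x).2 (lt_of_lt_of_le (hrpos 1) hx)
    · simp only [hk, if_false]
      refine le_trans (measure_mono ?_) (hρ k)
      intro x hx
      exact ⟨lt_of_lt_of_le (hrpos _) hx.1, hx.2.trans (hrρ k)⟩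
  · intro x hx
    have hx0 := (hD x).1 hx
    have hex : ∃ k, r (k + 1) ≤ Metric.infDist x Uᶜ := by
      obtain ⟨n, hn⟩ := exists_nat_one_div_lt hx0
      refine ⟨n, (hr1 n).trans (le_trans ?_ hn.le)⟩
      exact one_div_le_one_div_of_le (by positivity) (by linarith)
    rw [Set.mem_iUnion]
    refine ⟨Nat.find hex, ?_⟩
    have h1 := Nat.find_spec hex
    by_cases hk : Nat.find hex = 0
    · simp only [hk, if_true]
      rw [hk] at h1
      exact h1
    · simp only [hk, if_false]
      refine ⟨h1, ?_⟩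
      obtain ⟨j, hj⟩ := Nat.exists_eq_succ_of_ne_zero hk
      have h2 := Nat.find_min hex (m := j) (by omega)
      rw [hj]
      exact (not_le.1 h2).le

end Pool.Agent.H490R3.RZ
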