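import Pool.Agent.H490R3.RZ.Stmts

set_option autoImplicit false

open MeasureTheory Set

namespace Pool.Agent.H490R3.RZ

open Pool.Agent.Helper557.Rz

/-- countable additivity inside a ball -/
theorem fin_cadd {d : ℕ} {μ : Set (E d) → ENNReal} (hμ : IsInv d μ) (hac : AC d μ)
    (hmono : ∀ A B : Set (E d), MeasurableSet A → MeasurableSet B → A ⊆ B → μ A ≤ μ B)
    (R : ℝ) (f : ℕ → Set (E d)) (hf : ∀ i, MeasurableSet (f i)) (hR : ∀ i, f i ⊆ Metric.ball 0 R)
    (hdis : Pairwise (Function.onFun Disjoint f)) : μ (⋃ i, f i) = ∑' i, μ (f i) := by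
  set P : ℕ → Set (E d) := fun N => ⋃ i ∈ Finset.range N, f i with hP
  have hPm : ∀ N, MeasurableSet (P N) := fun N =>
    Finset.measurableSet_biUnion _ fun i _ => hf i
  have hUm : MeasurableSet (⋃ i, f i) := MeasurableSet.iUnion hf
  have hPs : ∀ N, P (N + 1) = P N ∪ f N := by
    intro N
    simp only [hP]
    rw [Finset.range_add_one, Finset.set_biUnion_insert, union_comm]
  have hsum : ∀ N, μ (P N) = ∑ i ∈ Finset.range N, μ (f i) := by
    intro N
    induction N with
    | zero => simp [hP, hμ.empty]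
    | succ N ih =>
      rw [hPs, hμ.add _ _ (hPm N) (hf N), ih, Finset.sum_range_succ]
      simp only [hP]
      rw [Set.disjoint_left]
      intro x hx hxN
      simp only [mem_iUnion, Finset.mem_range] at hx
      obtain ⟨i, hi, hxi⟩ := hx
      exact Set.disjoint_left.1 (hdis hi.ne) hxi hxN
  have hPU : ∀ N, P N ⊆ ⋃ i, f i := fun N => iUnion₂_subset fun i _ => subset_iUnion f i
  set B : ℕ → Set (E d) := fun N => (⋃ i, f i) \ P N with hB
  have hBm : ∀ N, MeasurableSet (B N) := fun N => hUm.diff (hPm N)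
  have hUR : (⋃ i, f i) ⊆ Metric.ball 0 R := iUnion_subset hR
  have hsplit : ∀ N, μ (⋃ i, f i) = μ (P N) + μ (B N) := by
    intro N
    rw [← hμ.add _ _ (hPm N) (hBm N) disjoint_sdiff_right, union_diff_cancel (hPU N)]
  have hanti : Antitone B := by
    intro N M hNM
    refine diff_subset_diff_right ?_
    exact iUnion₂_subset fun i hi => subset_iUnion₂ (s := fun i (_ : i ∈ Finset.range M) => f i) i
      (Finset.mem_range.2 ((Finset.mem_range.1 hi).trans_le hNM))
  have hinter : ⋂ N, B N = ∅ := by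
    rw [Set.eq_empty_iff_forall_notMem]
    intro x hx
    have h0 := mem_iInter.1 hx 0
    obtain ⟨i, hi⟩ := mem_iUnion.1 h0.1
    exact (mem_iInter.1 hx (i + 1)).2 (mem_iUnion₂.2 ⟨i, Finset.mem_range.2 (Nat.lt_succ_self i), hi⟩)
  have hlim : Filter.Tendsto (fun N => volume (B N)) Filter.atTop (nhds 0) := by
    have := tendsto_measure_iInter_atTop (μ := (volume : Measure (E d))) (s := B)
      (fun N => (hBm N).nullMeasurableSet) hanti
      ⟨0, ((measure_mono (diff_subset.trans hUR)).trans_lt measure_ball_lt_top).ne⟩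
    rw [hinter, measure_empty] at this
    exact this
  apply le_antisymm
  · refine ENNReal.le_of_forall_pos_le_add ?_
    intro ε hε _
    obtain ⟨η, hη, hU⟩ := hac R ε (by exact_mod_cast hε)
    have hev := hlim.eventually_lt_const (ENNReal.ofReal_pos.2 hη)
    obtain ⟨N, hN⟩ := hev.exists
    obtain ⟨V, hBV, hVo, hVlt⟩ := (B N).exists_isOpen_lt_of_lt _ hN
    have h1 : μ (B N) ≤ ε := by
      refine (hmono (B N) (V ∩ Metric.ball 0 R) (hBm N)
        (hVo.inter Metric.isOpen_ball).measurableSet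
        (subset_inter hBV (diff_subset.trans hUR))).trans ?_
      refine (hU _ (hVo.inter Metric.isOpen_ball) inter_subset_right
        ((measure_mono inter_subset_left).trans hVlt.le)).trans ?_
      simp
    rw [hsplit N, hsum N]
    exact add_le_add (ENNReal.sum_le_tsum _) h1
  · rw [ENNReal.tsum_eq_iSup_nat]
    refine iSup_le fun N => ?_
    rw [← hsum N]
    exact hmono _ _ (hPm N) hUm (hPU N)

/-- the shell `n ≤ ‖x‖ < n + 1` -/
def fsh (d : ℕ) (n : ℕ) : Set (E d) := {x | (n : ℝ) ≤ ‖x‖ ∧ ‖x‖ < n + 1}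

theorem fsh_meas (d n : ℕ) : MeasurableSet (fsh d n) :=
  (measurableSet_le measurable_const measurable_norm).inter
    (measurableSet_lt measurable_norm measurable_const)

theorem fsh_disj (d : ℕ) : Pairwise (Function.onFun Disjoint (fsh d)) := by
  intro m n hmn
  rw [Function.onFun, Set.disjoint_left]
  intro x hx hy
  apply hmn
  have h1 : ⌊‖x‖⌋₊ = m := (Nat.floor_eq_iff (norm_nonneg x)).2 ⟨hx.1, hx.2⟩
  have h2 : ⌊‖x‖⌋₊ = n := (Nat.floor_eq_iff (norm_nonneg x)).2 ⟨hy.1, hy.2⟩
  exact h1.symm.trans h2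

theorem fsh_union (d : ℕ) : ⋃ n, fsh d n = univ := by
  rw [eq_univ_iff_forall]
  intro x
  exact mem_iUnion.2 ⟨⌊‖x‖⌋₊, Nat.floor_le (norm_nonneg x), Nat.lt_floor_add_one _⟩

theorem fsh_ball (d n : ℕ) : fsh d n ⊆ Metric.ball 0 (n + 1) := by
  intro x hx
  rw [mem_ball_zero_iff]
  exact hx.2

/-- two measures agreeing on bounded measurable sets are equal -/
theorem ext_bdd {d : ℕ} {ν₁ ν₂ : Measure (E d)}
    (h : ∀ A : Set (E d), MeasurableSet A → Bornology.IsBounded A → ν₁ A = ν₂ A) : ν₁ = ν₂ := by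
  refine Measure.ext fun A hA => ?_
  have hU : A = ⋃ n : ℕ, A ∩ Metric.ball 0 n := by
    rw [← inter_iUnion, Metric.iUnion_ball_nat, inter_univ]
  have hmon : Monotone fun n : ℕ => A ∩ Metric.ball (0 : E d) n := by
    intro m n hmn
    exact inter_subset_inter_right _ (Metric.ball_subset_ball (by exact_mod_cast hmn))
  rw [hU, hmon.measure_iUnion, hmon.measure_iUnion]
  congr 1
  funext n
  exact h _ (hA.inter Metric.isOpen_ball.measurableSet)
    (Metric.isBounded_ball.subset inter_subset_right)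

theorem vol_cube (d : ℕ) : volume {x : E d | ∀ i, 0 ≤ x i ∧ x i ≤ 1} = 1 := by
  have h := (EuclideanSpace.volume_preserving_symm_measurableEquiv_toLp (Fin d))
  have h2 : {x : E d | ∀ i, 0 ≤ x i ∧ x i ≤ 1} =
      (MeasurableEquiv.toLp 2 (Fin d → ℝ)).symm ⁻¹' (Icc (0 : Fin d → ℝ) 1) := by
    ext x
    simp only [mem_setOf_eq, mem_preimage, mem_Icc, Pi.le_def]
    constructor
    · intro hx
      exact ⟨fun i => (hx i).1, fun i => (hx i).2⟩
    · intro hx i
      exact ⟨hx.1 i, hx.2 i⟩
  rw [h2, h.measure_preimage_equiv, Real.volume_Icc_pi]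
  simp

theorem t_final (hb : P_basic) : P_final := by
  intro d hd μ hμ hac A hA hbA
  obtain ⟨hmono, hfin, -⟩ := hb d hd μ hμ
  have hν_emp : ∀ n : ℕ, μ (∅ ∩ fsh d n) = 0 := by
    intro n
    rw [empty_inter, hμ.empty]
  set νn : ℕ → Measure (E d) := fun n =>
    Measure.ofMeasurable (fun A _ => μ (A ∩ fsh d n)) (hν_emp n) (by
      intro f hf hdis
      show μ ((⋃ i, f i) ∩ fsh d n) = ∑' i, μ (f i ∩ fsh d n)
      rw [iUnion_inter]
      refine fin_cadd hμ hac hmono (n + 1) _ (fun i => (hf i).inter (fsh_meas d n))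
        (fun i => inter_subset_right.trans (fsh_ball d n)) ?_
      intro i j hij
      exact (hdis hij).mono inter_subset_left inter_subset_left) with hνn
  have hνna : ∀ n, ∀ A : Set (E d), MeasurableSet A → νn n A = μ (A ∩ fsh d n) :=
    fun n A hA => Measure.ofMeasurable_apply A hA
  set ν : Measure (E d) := Measure.sum νn with hν
  have hνb : ∀ A : Set (E d), MeasurableSet A → Bornology.IsBounded A → ν A = μ A := by
    intro A hA hbA
    obtain ⟨R, hR⟩ := hbA.subset_ball 0
    rw [hν, Measure.sum_apply _ hA]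
    simp_rw [hνna _ A hA]
    rw [← fin_cadd hμ hac hmono R _ (fun i => hA.inter (fsh_meas d i))
      (fun i => inter_subset_left.trans hR) ?_, ← inter_iUnion, fsh_union, inter_univ]
    intro i j hij
    exact (fsh_disj d hij).mono inter_subset_right inter_subset_right
  have hinv : ν.IsAddLeftInvariant := by
    refine ⟨fun v => ?_⟩
    have hme : Measurable fun x : E d => v + x := measurable_const_add v
    refine ext_bdd fun A hA hbA => ?_
    have himg : (fun x : E d => v + x) ⁻¹' A = (IsometryEquiv.addLeft (-v)) '' A := by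
      ext x
      simp only [mem_preimage, mem_image]
      constructor
      · intro hx
        exact ⟨v + x, hx, by simp⟩
      · rintro ⟨y, hy, rfl⟩
        simpa using hy
    have hbd : Bornology.IsBounded ((fun x : E d => v + x) ⁻¹' A) := by
      rw [himg]
      exact (IsometryEquiv.isometry (IsometryEquiv.addLeft (-v))).lipschitz.isBounded_image hbA
    rw [Measure.map_apply hme hA, hνb _ (hme hA) hbd, hνb _ hA hbA, himg,
      hμ.inv (IsometryEquiv.addLeft (-v)) A hA]
  have hfc : IsFiniteMeasureOnCompacts ν := by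
    refine ⟨fun K hK => ?_⟩
    obtain ⟨R, hR⟩ := hK.isBounded.subset_ball 0
    refine (measure_mono hR).trans_lt ?_
    rw [hνb _ Metric.isOpen_ball.measurableSet Metric.isBounded_ball]
    exact lt_top_iff_ne_top.2 (hfin R)
  have hsm := Measure.isAddLeftInvariant_eq_smul ν (volume : Measure (E d))
  set c := Measure.addHaarScalarFactor ν (volume : Measure (E d)) with hc
  have hcm : MeasurableSet {x : E d | ∀ i, 0 ≤ x i ∧ x i ≤ 1} := by
    have : {x : E d | ∀ i, 0 ≤ x i ∧ x i ≤ 1} =
        ⋂ i, ({x : E d | 0 ≤ x i} ∩ {x : E d | x i ≤ 1}) := by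
      ext x; simp
    rw [this]
    refine MeasurableSet.iInter fun i => ?_
    have hi : Measurable fun x : E d => x i := by fun_prop
    exact (measurableSet_le measurable_const hi).inter (measurableSet_le hi measurable_const)
  have hcb : Bornology.IsBounded {x : E d | ∀ i, 0 ≤ x i ∧ x i ≤ 1} := by
    refine (Metric.isBounded_closedBall (x := (0 : E d)) (r := Real.sqrt d)).subset ?_
    intro x hx
    rw [mem_closedBall_zero_iff, EuclideanSpace.norm_eq]
    apply Real.sqrt_le_sqrt
    calc ∑ i, ‖x i‖ ^ 2 ≤ ∑ _i : Fin d, (1 : ℝ) := by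
          refine Finset.sum_le_sum fun i _ => ?_
          rw [Real.norm_eq_abs, abs_of_nonneg (hx i).1]
          exact pow_le_one₀ (hx i).1 (hx i).2
      _ = (d : ℝ) := by simp
  have hc1 : (c : ENNReal) = 1 := by
    have h1 := hνb _ hcm hcb
    rw [hμ.cube, hsm, Measure.smul_apply, vol_cube] at h1
    simpa using h1
  have h2 : ν = volume := by
    rw [hsm]
    have : c = 1 := by exact_mod_cast hc1
    rw [this, one_smul]
  rw [← hνb A hA hbA, h2]

end Pool.Agent.H490R3.RZ
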