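import Pool.Agent.H490R3.RZ.Stmts

set_option autoImplicit false

open MeasureTheory Set

namespace Pool.Agent.H490R3.RZ

open Pool.Agent.Helper557.Rz

/-- the polar preimage of a set -/
def pol {d : ℕ} (P : Set (E d)) : Set (S d × Ioi (0 : ℝ)) := {q | (q.2 : ℝ) • (q.1 : E d) ∈ P}

theorem pol_meas {d : ℕ} {P : Set (E d)} (hP : MeasurableSet P) : MeasurableSet (pol P) := by
  have hc : Continuous (fun q : S d × Ioi (0 : ℝ) => (q.2 : ℝ) • (q.1 : E d)) := by fun_prop
  exact hc.measurable hP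

theorem pol_le {d : ℕ} (hd : 1 ≤ d) {P : Set (E d)} (hP : MeasurableSet P) :
    ∫⁻ r, (volume : Measure (E d)).toSphere ((fun x => (x, r)) ⁻¹' pol P)
      ∂(Measure.volumeIoiPow (d - 1)) ≤ volume P := by
  haveI : Nonempty (Fin d) := ⟨⟨0, hd⟩⟩
  have hmp := (volume : Measure (E d)).measurePreserving_homeomorphUnitSphereProd
  have hdim : Module.finrank ℝ (E d) = d := by simp
  rw [hdim] at hmp
  rw [← Measure.prod_apply_symm (pol_meas hP), ← hmp.measure_preimage (pol_meas hP).nullMeasurableSet,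
    comap_subtype_coe_apply (measurableSet_singleton _).compl]
  refine measure_mono ?_
  rintro _ ⟨x, hx, rfl⟩
  have h1 : ((homeomorphUnitSphereProd (E d) x).2 : ℝ) • ((homeomorphUnitSphereProd (E d) x).1 : E d) ∈ P := hx
  have hx0 : ‖(x : E d)‖ ≠ 0 := norm_ne_zero_iff.2 x.2
  rw [homeomorphUnitSphereProd_apply_snd_coe, homeomorphUnitSphereProd_apply_fst_coe,
    smul_smul, mul_inv_cancel₀ hx0, one_smul] at h1
  exact h1

theorem t_polar : P_polar := by
  intro d hd r₀ R hr₀ hR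
  haveI : Nonempty (Fin d) := ⟨⟨0, hd⟩⟩
  haveI : Nontrivial (E d) := inferInstance
  set M : ENNReal := (volume : Measure (E d)).toSphere univ with hM
  have hM0 : M ≠ 0 := by
    rw [hM, ne_eq, Measure.measure_univ_eq_zero]
    exact Measure.toSphere_ne_zero _
  have hMt : M ≠ ⊤ := measure_ne_top _ _
  have hMr : 0 < M.toReal := ENNReal.toReal_pos hM0 hMt
  have hr : 0 < r₀ ^ (d - 1) := pow_pos hr₀ _
  refine ⟨(M.toReal * r₀ ^ (d - 1))⁻¹, by positivity, ?_⟩
  intro P η hP hη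
  set T : Set ℝ := {r : ℝ | r₀ ≤ r ∧ r ≤ R ∧ ENNReal.ofReal η < sg d (sl P r)} with hT
  set f : Ioi (0 : ℝ) → ENNReal := fun r =>
    (volume : Measure (E d)).toSphere ((fun x => (x, r)) ⁻¹' pol P) with hf
  have hfm : Measurable f := measurable_measure_prodMk_right (pol_meas hP)
  have hfs : ∀ r : Ioi (0 : ℝ), sg d (sl P r) = M⁻¹ * f r := fun r => rfl
  set T' : Set (Ioi (0 : ℝ)) := {r | r₀ ≤ (r : ℝ) ∧ (r : ℝ) ≤ R ∧ ENNReal.ofReal η < M⁻¹ * f r}
    with hT'
  have hT'm : MeasurableSet T' := by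
    refine (measurableSet_le measurable_const measurable_subtype_coe).inter
      ((measurableSet_le measurable_subtype_coe measurable_const).inter
        (measurableSet_lt measurable_const (hfm.const_mul _)))
  have hTT' : Subtype.val '' T' = T := by
    ext r
    constructor
    · rintro ⟨s, hs, rfl⟩
      exact ⟨hs.1, hs.2.1, by rw [hfs]; exact hs.2.2⟩
    · intro h
      refine ⟨⟨r, lt_of_lt_of_le hr₀ h.1⟩, ⟨h.1, h.2.1, ?_⟩, rfl⟩
      have h3 := h.2.2
      rw [← hfs]
      exact h3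
  have h1 : ENNReal.ofReal (r₀ ^ (d - 1)) * volume T ≤ Measure.volumeIoiPow (d - 1) T' := by
    rw [Measure.volumeIoiPow, withDensity_apply _ hT'm]
    calc ENNReal.ofReal (r₀ ^ (d - 1)) * volume T
        = ∫⁻ _ in T', ENNReal.ofReal (r₀ ^ (d - 1)) ∂(Measure.comap Subtype.val volume) := by
          rw [setLIntegral_const, comap_subtype_coe_apply measurableSet_Ioi, hTT']
      _ ≤ _ := by
          refine setLIntegral_mono' hT'm ?_
          intro r hr'
          exact ENNReal.ofReal_le_ofReal (pow_le_pow_left₀ hr₀.le hr'.1 _)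
  have h2 : (ENNReal.ofReal η * M) * Measure.volumeIoiPow (d - 1) T' ≤ volume P := by
    refine le_trans ?_ (pol_le hd hP)
    refine le_trans ?_ (mul_meas_ge_le_lintegral hfm (ENNReal.ofReal η * M))
    gcongr
    intro r hr'
    have h3 := hr'.2.2.le
    have h4 : ENNReal.ofReal η * M ≤ M⁻¹ * f r * M := by gcongr
    have h5 : M⁻¹ * f r * M = f r := by
      rw [mul_comm, ← mul_assoc, ENNReal.mul_inv_cancel hM0 hMt, one_mul]
    rw [h5] at h4
    exact h4
  have h3 : ENNReal.ofReal ((M.toReal * r₀ ^ (d - 1))⁻¹ / η) *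
      ((ENNReal.ofReal η * M) * ENNReal.ofReal (r₀ ^ (d - 1))) = 1 := by
    have hMe : M = ENNReal.ofReal M.toReal := (ENNReal.ofReal_toReal hMt).symm
    conv_lhs => rw [hMe]
    rw [ENNReal.toReal_ofReal hMr.le, ← ENNReal.ofReal_mul hη.le,
      ← ENNReal.ofReal_mul (by positivity), ← ENNReal.ofReal_mul (by positivity)]
    rw [← ENNReal.ofReal_one]
    congr 1
    field_simp
  calc volume T = ENNReal.ofReal ((M.toReal * r₀ ^ (d - 1))⁻¹ / η) *
      ((ENNReal.ofReal η * M) * ENNReal.ofReal (r₀ ^ (d - 1))) * volume T := by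
        rw [h3, one_mul]
    _ = ENNReal.ofReal ((M.toReal * r₀ ^ (d - 1))⁻¹ / η) *
      ((ENNReal.ofReal η * M) * (ENNReal.ofReal (r₀ ^ (d - 1)) * volume T)) := by
        rw [mul_assoc, mul_assoc (ENNReal.ofReal η * M)]
    _ ≤ ENNReal.ofReal ((M.toReal * r₀ ^ (d - 1))⁻¹ / η) *
      ((ENNReal.ofReal η * M) * Measure.volumeIoiPow (d - 1) T') := by gcongr
    _ ≤ ENNReal.ofReal ((M.toReal * r₀ ^ (d - 1))⁻¹ / η) * volume P := by gcongr

end Pool.Agent.H490R3.RZ
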