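import Pool.Agent.H490R3.RZ.Stmts

/-! The distribution of a coordinate on the sphere is absolutely continuous. -/

set_option autoImplicit false

open MeasureTheory Set
open scoped Pointwise

namespace Pool.Agent.H490R3.RZ

open Pool.Agent.Helper557.Rz

namespace Scd

/-- one dimensional null sets -/
theorem null1 (ρ : ℝ) (hρ : 0 < ρ) (A : Set ℝ) (hA : volume A = 0) :
    volume {t : ℝ | t / √(t ^ 2 + ρ ^ 2) ∈ A} = 0 := by
  have h1 : {t : ℝ | t / √(t ^ 2 + ρ ^ 2) ∈ A} ⊆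
      (fun s : ℝ => ρ * s / √(1 - s ^ 2)) '' (A ∩ Ioo (-1) 1) := by
    intro t ht
    have hp : 0 < t ^ 2 + ρ ^ 2 := by positivity
    have hq : 0 < √(t ^ 2 + ρ ^ 2) := Real.sqrt_pos.2 hp
    have hqq : √(t ^ 2 + ρ ^ 2) ^ 2 = t ^ 2 + ρ ^ 2 := Real.sq_sqrt hp.le
    have hs : 1 - (t / √(t ^ 2 + ρ ^ 2)) ^ 2 = (ρ / √(t ^ 2 + ρ ^ 2)) ^ 2 := by
      rw [div_pow, div_pow, hqq]
      field_simp
      ring
    have hs0 : 0 < ρ / √(t ^ 2 + ρ ^ 2) := by positivity
    refine ⟨t / √(t ^ 2 + ρ ^ 2), ⟨ht, ?_⟩, ?_⟩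
    · have h2 : (t / √(t ^ 2 + ρ ^ 2)) ^ 2 < 1 := by
        have := pow_pos hs0 2
        linarith
      rw [mem_Ioo, ← abs_lt]
      exact (sq_lt_one_iff_abs_lt_one _).1 h2
    · show ρ * (t / √(t ^ 2 + ρ ^ 2)) / √(1 - (t / √(t ^ 2 + ρ ^ 2)) ^ 2) = t
      rw [hs, Real.sqrt_sq hs0.le]
      field_simp
  refine measure_mono_null h1 ?_
  refine addHaar_image_eq_zero_of_differentiableOn_of_addHaar_eq_zero volume ?_
    (measure_mono_null inter_subset_left hA)
  intro s hs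
  have h2 : 0 < 1 - s ^ 2 := by
    have h3 := hs.2.1
    have h4 := hs.2.2
    nlinarith
  have h3 : DifferentiableAt ℝ (fun s : ℝ => √(1 - s ^ 2)) s :=
    DifferentiableAt.sqrt (by fun_prop) h2.ne'
  have h4 : DifferentiableAt ℝ (fun s : ℝ => ρ * s / √(1 - s ^ 2)) s :=
    DifferentiableAt.div (by fun_prop) h3 (Real.sqrt_pos.2 h2).ne'
  exact h4.differentiableWithinAt

/-- null sets in coordinates -/
theorem nullPi (n : ℕ) (hn : 1 ≤ n) (j : Fin (n + 1)) (A : Set ℝ) (hA : MeasurableSet A)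
    (h0 : volume A = 0) :
    volume {y : Fin (n + 1) → ℝ | y j / √(∑ i, y i ^ 2) ∈ A} = 0 := by
  have hmeas : MeasurableSet {y : Fin (n + 1) → ℝ | y j / √(∑ i, y i ^ 2) ∈ A} := by
    have : Measurable fun y : Fin (n + 1) → ℝ => y j / √(∑ i, y i ^ 2) := by fun_prop
    exact this hA
  have hmp := (volume_preserving_piFinSuccAbove (fun _ : Fin (n + 1) => ℝ) j).symm
  rw [← hmp.measure_preimage hmeas.nullMeasurableSet]
  have hset : MeasurableSet ((MeasurableEquiv.piFinSuccAbove (fun _ => ℝ) j).symm ⁻¹'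
      {y : Fin (n + 1) → ℝ | y j / √(∑ i, y i ^ 2) ∈ A}) := (MeasurableEquiv.measurable _) hmeas
  rw [Measure.volume_eq_prod, Measure.prod_apply_symm hset]
  rw [lintegral_eq_zero_iff (measurable_measure_prodMk_right hset)]
  have hne : ∀ᵐ y : Fin n → ℝ, y ≠ 0 := by
    have : Nonempty (Fin n) := ⟨⟨0, by omega⟩⟩
    rw [ae_iff]
    simp
  filter_upwards [hne] with y hy
  have hpos : 0 < ∑ i, y i ^ 2 := by
    obtain ⟨i, hi⟩ := Function.ne_iff.1 hy
    refine Finset.sum_pos' (fun i _ => sq_nonneg _) ⟨i, Finset.mem_univ _, ?_⟩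
    have hi' : y i ≠ 0 := hi
    positivity
  have h1 := null1 (√(∑ i, y i ^ 2)) (Real.sqrt_pos.2 hpos) A h0
  rw [Real.sq_sqrt hpos.le] at h1
  refine measure_mono_null ?_ h1
  intro t ht
  have ht' : (j.insertNth t y : Fin (n + 1) → ℝ) j /
      √(∑ i, (j.insertNth t y : Fin (n + 1) → ℝ) i ^ 2) ∈ A := ht
  rw [Fin.sum_univ_succAbove _ j] at ht'
  simp only [Fin.insertNth_apply_same, Fin.insertNth_apply_succAbove] at ht'
  exact ht'

/-- null sets on the sphere -/
theorem nullS (d : ℕ) (hd : 2 ≤ d) (j : Fin d) (A : Set ℝ) (hA : MeasurableSet A)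
    (h0 : volume A = 0) : sg d {ω : S d | (ω : E d) j ∈ A} = 0 := by
  obtain ⟨n, rfl⟩ : ∃ n, d = n + 1 := ⟨d - 1, by omega⟩
  have hm : MeasurableSet {ω : S (n + 1) | (ω : E (n + 1)) j ∈ A} := by
    have : Measurable fun ω : S (n + 1) => (ω : E (n + 1)) j := by fun_prop
    exact this hA
  have h1 : (volume : Measure (E (n + 1))).toSphere {ω : S (n + 1) | (ω : E (n + 1)) j ∈ A} = 0 := by
    rw [Measure.toSphere_apply' _ hm]
    have h2 : volume (Ioo (0 : ℝ) 1 • ((↑) '' {ω : S (n + 1) | (ω : E (n + 1)) j ∈ A} :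
        Set (E (n + 1)))) = 0 := by
      have h3 := nullPi n (by omega) j A hA h0
      rw [← (PiLp.volume_preserving_ofLp (Fin (n + 1))).measure_preimage ?_] at h3
      · refine measure_mono_null ?_ h3
        rintro _ ⟨r, hr, _, ⟨ω, hω, rfl⟩, rfl⟩
        have hr0 : 0 < r := hr.1
        have hn : ‖(ω : E (n + 1))‖ = 1 := by simp
        have hs : √(∑ i, (r * (ω : E (n + 1)) i) ^ 2) = r := by
          have h4 : ∑ i, (r * (ω : E (n + 1)) i) ^ 2 = r ^ 2 * ∑ i, (ω : E (n + 1)) i ^ 2 := by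
            rw [Finset.mul_sum]
            exact Finset.sum_congr rfl fun i _ => by ring
          have h5 : ∑ i, (ω : E (n + 1)) i ^ 2 = 1 := by
            have := EuclideanSpace.real_norm_sq_eq (ω : E (n + 1))
            rw [hn] at this
            linarith
          rw [h4, h5, mul_one, Real.sqrt_sq hr0.le]
        show (r * (ω : E (n + 1)) j) / √(∑ i, (r * (ω : E (n + 1)) i) ^ 2) ∈ A
        rw [hs, mul_div_cancel_left₀ _ hr0.ne']
        exact hω
      · have : Measurable fun y : Fin (n + 1) → ℝ => y j / √(∑ i, y i ^ 2) := by fun_prop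
        exact (this hA).nullMeasurableSet
    rw [h2, mul_zero]
  rw [sg, Measure.smul_apply, h1, smul_zero]

theorem sg_univ_le (d : ℕ) : sg d univ ≤ 1 := by
  rw [sg, Measure.smul_apply, smul_eq_mul]
  exact ENNReal.inv_mul_le_one _

end Scd

theorem t_scd : P_scd := by
  intro d hd j η hη
  have hmeas : Measurable fun ω : S d => (ω : E d) j := by fun_prop
  set ν : Measure ℝ := (sg d).map fun ω : S d => (ω : E d) j with hν
  have hfin : IsFiniteMeasure ν := by
    constructor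
    rw [hν, Measure.map_apply hmeas MeasurableSet.univ, preimage_univ]
    exact lt_of_le_of_lt (Scd.sg_univ_le d) ENNReal.one_lt_top
  have hac : ν ≪ volume := by
    refine Measure.AbsolutelyContinuous.mk fun A hA h0 => ?_
    rw [hν, Measure.map_apply hmeas hA]
    exact Scd.nullS d hd j A hA h0
  have hrn : (volume : Measure ℝ).withDensity (ν.rnDeriv volume) = ν :=
    Measure.withDensity_rnDeriv_eq ν volume hac
  have hf : ∫⁻ x, ν.rnDeriv volume x ∂volume ≠ ⊤ := Measure.lintegral_rnDeriv_lt_top ν volume |>.ne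
  obtain ⟨δ, hδ, h⟩ := exists_pos_setLIntegral_lt_of_measure_lt hf
    (ENNReal.ofReal_pos.2 hη).ne'
  obtain ⟨δ', hδ', hδ''⟩ : ∃ δ' : ℝ, 0 < δ' ∧ ENNReal.ofReal δ' < δ := by
    rcases eq_or_ne δ ⊤ with h1 | h1
    · exact ⟨1, one_pos, by rw [h1]; exact ENNReal.ofReal_lt_top⟩
    · have h2 : 0 < δ.toReal := ENNReal.toReal_pos hδ.ne' h1
      refine ⟨δ.toReal / 2, by positivity, ?_⟩
      rw [ENNReal.ofReal_lt_iff_lt_toReal (by positivity) h1]
      linarith
  refine ⟨δ', hδ', fun A hA hvol => ?_⟩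
  have h3 := h A (hvol.trans_lt hδ'')
  rw [← withDensity_apply _ hA, hrn, hν, Measure.map_apply hmeas hA] at h3
  exact h3.le

end Pool.Agent.H490R3.RZ
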