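import Pool.Agent.H490R3.RZ.Rad
import Pool.Agent.H490R3.RZ.T_exh
import Pool.Agent.H490R3.RZ.T_scd
import Pool.Agent.H490R3.RZ.T_drain
import Pool.Agent.H490R3.RZ.T_polar
import Pool.Agent.H490R3.RZ.T_basic
import Pool.Agent.H490R3.RZ.T_final
import Pool.Agent.Helper557.Rz.Final0
import Pool.Agent.Helper557.Rz.M_gap3

set_option autoImplicit false

open MeasureTheory Set

namespace Pool.Agent.H490R3.RZ

open Pool.Agent.Helper557.Rz

theorem main (d : ℕ) (hd : 3 ≤ d) (μ : Set (E d) → ENNReal) (h : IsInv d μ) (A : Set (E d))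
    (hA : MeasurableSet A) (hb : Bornology.IsBounded A) : μ A = volume A := by
  obtain ⟨k, g, κ, hg⟩ := gap_of_gap3 gap3 d hd
  obtain ⟨ε₀, h0, hmov⟩ := mov_of_gap d (by omega) k g κ hg
  have hfl := flow_of_mov d (by omega) k g ε₀ h0 hmov
  exact t_final t_basic d (by omega) μ h
    (ac t_drain t_basic t_exh t_scd t_polar k g (1 / ε₀) (by omega) (by positivity) hfl h) A hA hb

/-- restriction to the bounded Borel sets of the notion `IsInv` -/
structure IsInvB (d : ℕ) (μ : Set (E d) → ENNReal) : Prop where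
  empty : μ ∅ = 0
  add : ∀ A B : Set (E d), MeasurableSet A → MeasurableSet B → Bornology.IsBounded A →
    Bornology.IsBounded B → Disjoint A B → μ (A ∪ B) = μ A + μ B
  inv : ∀ (g : E d ≃ᵢ E d) (A : Set (E d)), MeasurableSet A → Bornology.IsBounded A →
    μ (g '' A) = μ A
  cube : μ {x : E d | ∀ i, 0 ≤ x i ∧ x i ≤ 1} = 1

lemma isInv_toB {d : ℕ} {μ : Set (E d) → ENNReal} (h : IsInv d μ) : IsInvB d μ :=
  ⟨h.empty, fun A B hA hB _ _ hAB => h.add A B hA hB hAB, fun g A hA _ => h.inv g A hA, h.cube⟩

lemma cube_bdd (d : ℕ) : Bornology.IsBounded {x : E d | ∀ i, 0 ≤ x i ∧ x i ≤ 1} := by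
  rw [isBounded_iff_forall_norm_le]
  refine ⟨Real.sqrt d, fun x hx => ?_⟩
  rw [EuclideanSpace.norm_eq]
  refine Real.sqrt_le_sqrt ?_
  calc ∑ i, ‖x i‖ ^ 2 ≤ ∑ _i : Fin d, (1 : ℝ) := by
        refine Finset.sum_le_sum (fun i _ => ?_)
        have h1 := (hx i).1
        have h2 := (hx i).2
        rw [Real.norm_eq_abs, sq_abs]
        nlinarith
    _ = d := by simp

lemma image_bdd_iff {d : ℕ} (g : E d ≃ᵢ E d) (A : Set (E d)) :
    Bornology.IsBounded (g '' A) ↔ Bornology.IsBounded A := by
  constructor
  · intro h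
    have h1 := g.symm.isometry.lipschitz.isBounded_image h
    rwa [← image_comp, show (⇑g.symm ∘ ⇑g) = id from funext (fun x => by simp), image_id] at h1
  · intro h
    exact g.isometry.lipschitz.isBounded_image h

open Classical in
/-- extension by `∞` to the unbounded sets -/
noncomputable def ext {d : ℕ} (μ : Set (E d) → ENNReal) (A : Set (E d)) : ENNReal :=
  if Bornology.IsBounded A then μ A else ⊤

lemma ext_isInv {d : ℕ} {μ : Set (E d) → ENNReal} (h : IsInvB d μ) : IsInv d (ext μ) := by
  refine ⟨?_, ?_, ?_, ?_⟩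
  · rw [ext, if_pos Bornology.isBounded_empty, h.empty]
  · intro A B hA hB hAB
    by_cases h1 : Bornology.IsBounded A
    · by_cases h2 : Bornology.IsBounded B
      · rw [ext, ext, ext, if_pos (h1.union h2), if_pos h1, if_pos h2, h.add A B hA hB h1 h2 hAB]
      · have h3 : ¬ Bornology.IsBounded (A ∪ B) := fun hc => h2 (hc.subset subset_union_right)
        rw [ext, ext, ext, if_neg h3, if_neg h2, add_top]
    · have h3 : ¬ Bornology.IsBounded (A ∪ B) := fun hc => h1 (hc.subset subset_union_left)
      rw [ext, ext, if_neg h3, if_neg h1, top_add]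
  · intro g A hA
    by_cases h1 : Bornology.IsBounded A
    · rw [ext, ext, if_pos ((image_bdd_iff g A).2 h1), if_pos h1, h.inv g A hA h1]
    · rw [ext, ext, if_neg (fun hc => h1 ((image_bdd_iff g A).1 hc)), if_neg h1]
  · rw [ext, if_pos (cube_bdd d), h.cube]

/-- uniqueness on the bounded Borel sets -/
theorem main_b (d : ℕ) (hd : 3 ≤ d) (μ : Set (E d) → ENNReal) (h : IsInvB d μ) (A : Set (E d))
    (hA : MeasurableSet A) (hb : Bornology.IsBounded A) : μ A = volume A := by
  have := main d hd (ext μ) (ext_isInv h) A hA hb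
  rwa [ext, if_pos hb] at this

lemma vol_isInv (d : ℕ) : IsInv d (fun A => (volume : Measure (E d)) A) := by
  refine ⟨measure_empty, fun A B _ hB hAB => measure_union hAB hB, ?_, vol_cube d⟩
  intro g A hA
  set L := g.toRealLinearIsometryEquiv with hL
  have e : g '' A = (fun z => z + -(g 0)) ⁻¹' (L.symm ⁻¹' A) := by
    ext z
    simp only [mem_image, mem_preimage]
    rw [hL, IsometryEquiv.toRealLinearIsometryEquiv_symm_apply, neg_add_cancel_right]
    constructor
    · rintro ⟨y, hy, rfl⟩
      simpa using hy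
    · intro hz
      exact ⟨g.symm z, hz, by simp⟩
  show volume (g '' A) = volume A
  rw [e, measure_preimage_add_right]
  exact L.symm.measurePreserving.measure_preimage hA.nullMeasurableSet

/-- the Borel sets on which Lebesgue measure is determined -/
theorem main_iff (d : ℕ) (hd : 3 ≤ d) (A : Set (E d)) (hA : MeasurableSet A) :
    (∀ μ : Set (E d) → ENNReal, IsInv d μ → μ A = volume A) ↔
      (Bornology.IsBounded A ∨ volume A = ⊤) := by
  constructor
  · intro h
    by_contra hcon
    push Not at hcon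
    obtain ⟨h1, h2⟩ := hcon
    have h3 := h _ (ext_isInv (isInv_toB (vol_isInv d)))
    rw [ext, if_neg h1] at h3
    exact h2 h3.symm
  · rintro (h1 | h1) μ hμ
    · exact main d hd μ hμ A hA h1
    · rw [h1]
      have hU : A = ⋃ n : ℕ, A ∩ Metric.ball 0 n := by
        rw [← inter_iUnion, Metric.iUnion_ball_nat, inter_univ]
      have hmon : Monotone fun n : ℕ => A ∩ Metric.ball (0 : E d) n := by
        intro m n hmn
        exact inter_subset_inter_right _ (Metric.ball_subset_ball (by exact_mod_cast hmn))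
      have h2 : volume A ≤ μ A := by
        conv_lhs => rw [hU]
        rw [hmon.measure_iUnion]
        refine iSup_le (fun n => ?_)
        have hm : MeasurableSet (A ∩ Metric.ball 0 n) := hA.inter Metric.isOpen_ball.measurableSet
        rw [← main d hd μ hμ _ hm (Metric.isBounded_ball.subset inter_subset_right)]
        exact (t_basic d (by omega) μ hμ).1 _ _ hm hA inter_subset_left
      rw [h1] at h2
      exact top_le_iff.1 h2

end Pool.Agent.H490R3.RZ
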