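import Pool.Agent.H490R3.RZ.Thin

set_option autoImplicit false

open MeasureTheory Set

namespace Pool.Agent.H490R3.RZ

open Pool.Agent.Helper557.Rz

section

variable {d : ℕ} {μ : Set (E d) → ENNReal}

lemma IsInv.sub_add (hb : P_basic) (hd : 1 ≤ d) (h : IsInv d μ) {A B : Set (E d)}
    (hA : MeasurableSet A) (hB : MeasurableSet B) : μ (A ∪ B) ≤ μ A + μ B := by
  have h1 : A ∪ B = A ∪ (B \ A) := by rw [union_diff_self]
  rw [h1, h.add A (B \ A) hA (hB.diff hA) disjoint_sdiff_right]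
  gcongr
  exact (hb d hd μ h).1 _ _ (hB.diff hA) hB diff_subset

lemma IsInv.pre (h : IsInv d μ) (g : E d ≃ᵢ E d) {A : Set (E d)} (hA : MeasurableSet A) :
    μ (g ⁻¹' A) = μ A := by
  have e : g ⁻¹' A = g.symm '' A := by
    ext x
    simp only [mem_preimage, mem_image]
    constructor
    · intro hx
      exact ⟨g x, hx, by simp⟩
    · rintro ⟨y, hy, rfl⟩
      simpa using hy
  rw [e]
  exact h.inv g.symm A hA

lemma IsInv.trans (h : IsInv d μ) (p : E d) {A : Set (E d)} (hA : MeasurableSet A) :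
    μ ((fun x => x + p) ⁻¹' A) = μ A := h.pre (IsometryEquiv.addRight p) hA

/-- the slice lemma for an invariant finitely additive measure on `E d` -/
theorem thin_mu (hdr : P_drain) (hb : P_basic) (k : ℕ) (g : Fin k → Iso d) (C : ℝ) (hd : 1 ≤ d)
    (hC : 0 < C) (hf : Flow d k g C) (h : IsInv d μ) (R' ε : ℝ) (hε : 0 < ε) :
    ∃ η : ℕ → ℝ, (∀ n, 0 < η n) ∧ ∀ (I : Set ℝ) (P : ℕ → Set (E d)), IsCompact I →
      (∀ r ∈ I, 0 < r) → (∀ r ∈ I, r < R') → (∀ n, IsClosed (P n)) →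
      (∀ n, ∀ x ∈ P n, ‖x‖ ∈ I) →
      (∀ n, ∀ r ∈ I, sg d (sl (P n) r) ≤ ENNReal.ofReal (η n)) →
      ∀ U : Set (E d), MeasurableSet U → U ⊆ ⋃ n, P n → μ U ≤ ENNReal.ofReal ε := by
  obtain ⟨hmono, hfin, -⟩ := hb d hd μ h
  set M : ℝ := (μ (Metric.ball 0 R')).toReal with hM
  have hM0 : 0 ≤ M := ENNReal.toReal_nonneg
  obtain ⟨η, hη, H⟩ := thin hdr d k g C hd hC hf (ε / (M + 1)) (by positivity)
  refine ⟨η, hη, fun I P hI hI0 hIR hPc hPI hPm U hU hPU => ?_⟩
  have hbm : MeasurableSet (Metric.ball (0 : E d) R') := Metric.isOpen_ball.measurableSet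
  have hfin' : ∀ A : Set (E d), MeasurableSet A → μ (A ∩ Metric.ball 0 R') ≠ ⊤ := fun A hA =>
    ne_top_of_le_ne_top (hfin R') (hmono _ _ (hA.inter hbm) hbm inter_subset_right)
  have key := H I P hI hI0 hPc hPI hPm (fun A => (μ (A ∩ Metric.ball 0 R')).toReal)
    (fun A _ => ENNReal.toReal_nonneg)
    (fun A B hA hB hAB => by
      rw [union_inter_distrib_right, h.add _ _ (hA.inter hbm) (hB.inter hbm)
        (hAB.mono inter_subset_left inter_subset_left),
        ENNReal.toReal_add (hfin' A hA) (hfin' B hB)])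
    (fun g A hA => by
      congr 1
      have e : g ⁻¹' A ∩ Metric.ball 0 R' = g.toIsometryEquiv ⁻¹' (A ∩ Metric.ball 0 R') := by
        ext x
        simp
      rw [e, h.pre g.toIsometryEquiv (hA.inter hbm)])
    U hU hPU
  simp only [univ_inter] at key
  have hUb : U ∩ Metric.ball 0 R' = U := by
    refine inter_eq_left.2 (fun x hx => ?_)
    obtain ⟨n, hn⟩ := mem_iUnion.1 (hPU hx)
    rw [mem_ball_zero_iff]
    exact hIR _ (hPI n x hn)
  rw [hUb] at key
  have hUf : μ U ≠ ⊤ := by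
    have := hfin' U hU
    rwa [hUb] at this
  rw [← ENNReal.ofReal_toReal hUf]
  refine ENNReal.ofReal_le_ofReal (key.trans ?_)
  rw [← hM, div_mul_eq_mul_div, div_le_iff₀ (by positivity)]
  nlinarith

/-- radial sets over a small set of radii are small -/
theorem radial (hdr : P_drain) (hb : P_basic) (hex : P_exh) (hsc : P_scd) (k : ℕ)
    (g : Fin k → Iso d) (C : ℝ) (hd : 2 ≤ d) (hC : 0 < C) (hf : Flow d k g C) (h : IsInv d μ)
    (R ε : ℝ) (hR : 0 < R) (hε : 0 < ε) :
    ∃ δ : ℝ, 0 < δ ∧ ∀ J : Set ℝ, IsOpen J → volume J ≤ ENNReal.ofReal δ →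
      μ {x : E d | ‖x‖ ∈ J ∧ ‖x‖ ≤ R} ≤ ENNReal.ofReal ε := by
  have hd1 : 1 ≤ d := by omega
  obtain ⟨hmono, hfin, hsmall⟩ := hb d hd1 μ h
  obtain ⟨r₀, hr₀, hr₀s⟩ := hsmall (ε / 2) (by positivity)
  obtain ⟨η, hη, H⟩ := thin_mu hdr hb k g C hd1 hC hf h (R + 2) (ε / 2) (by positivity)
  let j : Fin d := ⟨0, by omega⟩
  let p : E d := EuclideanSpace.single j 1
  have hp : ‖p‖ = 1 := by simp [p]
  choose δ hδ0 hδ using fun n => hsc d hd j (η n) (hη n)
  refine ⟨δ 0 * r₀ / R, by have := hδ0 0; positivity, fun J hJ hJv => ?_⟩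
  have hJu : J ≠ univ := by
    rintro rfl
    simp at hJv
  obtain ⟨Q, hQc, hQv, hQU⟩ := hex ℝ volume J hJ (fun n => δ n * r₀ / R)
    (fun n => by have := hδ0 n; positivity) hJv hJu
  have hnorm_meas : Measurable (fun y : E d => ‖y‖) := continuous_norm.measurable
  have hWm : MeasurableSet {x : E d | ‖x‖ ∈ J ∧ ‖x‖ ≤ R} :=
    (hnorm_meas hJ.measurableSet).inter (hnorm_meas measurableSet_Iic)
  rw [← h.trans p hWm]
  set I : Set ℝ := Icc r₀ (R + 1) with hI
  set U : Set (E d) := {y | ‖y‖ ∈ I ∧ ‖y + p‖ ∈ J ∧ ‖y + p‖ ≤ R} with hUdef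
  have hcp : Continuous (fun y : E d => ‖y + p‖) := by fun_prop
  have hUm : MeasurableSet U :=
    (hnorm_meas measurableSet_Icc).inter
      ((hcp.measurable hJ.measurableSet).inter (hcp.measurable measurableSet_Iic))
  have hsub : (fun x => x + p) ⁻¹' {x : E d | ‖x‖ ∈ J ∧ ‖x‖ ≤ R} ⊆ Metric.closedBall 0 r₀ ∪ U := by
    rintro y ⟨hy1, hy2⟩
    rcases le_or_gt ‖y‖ r₀ with hy | hy
    · exact Or.inl (by simpa using hy)
    · refine Or.inr ⟨⟨hy.le, ?_⟩, hy1, hy2⟩
      have : ‖y‖ ≤ ‖y + p‖ + ‖p‖ := by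
        have := norm_sub_le (y + p) p
        simpa using this
      rw [hp] at this
      have hy2' : ‖y + p‖ ≤ R := hy2
      linarith
  have hPW : MeasurableSet ((fun x => x + p) ⁻¹' {x : E d | ‖x‖ ∈ J ∧ ‖x‖ ≤ R}) :=
    (measurable_add_const p) hWm
  have hcb : MeasurableSet (Metric.closedBall (0 : E d) r₀) := Metric.isClosed_closedBall.measurableSet
  refine (hmono _ _ hPW (hcb.union hUm) hsub).trans ?_
  refine (h.sub_add hb hd1 hcb hUm).trans ?_
  have hUs : μ U ≤ ENNReal.ofReal (ε / 2) := by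
    refine H I (fun n => {y | ‖y‖ ∈ I ∧ ‖y + p‖ ∈ Q n ∧ ‖y + p‖ ≤ R}) isCompact_Icc
      (fun r hr => hr₀.trans_le hr.1) (fun r hr => by have := hr.2; linarith) (fun n => ?_)
      (fun n x hx => hx.1) (fun n r hr => ?_) U hUm ?_
    · exact (isClosed_Icc.preimage continuous_norm).inter
        (((hQc n).preimage hcp).inter (isClosed_Iic.preimage hcp))
    · have hr0 : 0 < r := hr₀.trans_le hr.1
      set A : Set ℝ := (fun s : ℝ => (s ^ 2 - 1 - r ^ 2) / (2 * r)) '' (Q n ∩ Icc 0 R) with hA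
      have hlip : LipschitzOnWith (Real.toNNReal (R / r₀))
          (fun s : ℝ => (s ^ 2 - 1 - r ^ 2) / (2 * r)) (Q n ∩ Icc 0 R) := by
        refine LipschitzOnWith.of_dist_le_mul (fun s hs t ht => ?_)
        rw [Real.coe_toNNReal _ (by positivity), Real.dist_eq, Real.dist_eq]
        have e : (s ^ 2 - 1 - r ^ 2) / (2 * r) - (t ^ 2 - 1 - r ^ 2) / (2 * r) =
            (s + t) / (2 * r) * (s - t) := by field_simp; ring
        rw [e, abs_mul]
        refine mul_le_mul_of_nonneg_right ?_ (abs_nonneg _)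
        have hs1 := hs.2.1
        have hs2 := hs.2.2
        have ht1 := ht.2.1
        have ht2 := ht.2.2
        rw [abs_of_nonneg (by positivity), div_le_div_iff₀ (by positivity) hr₀]
        have h1 := hr.1
        nlinarith
      have hAc : IsCompact A := by
        refine ((isCompact_Icc.inter_left (hQc n))).image ?_
        fun_prop
      have hAv : volume A ≤ ENNReal.ofReal (δ n) := by
        have h1 := hlip.hausdorffMeasure_image_le (d := 1) zero_le_one
        rw [hausdorffMeasure_real, ENNReal.rpow_one] at h1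
        refine h1.trans ?_
        calc (Real.toNNReal (R / r₀) : ENNReal) * volume (Q n ∩ Icc 0 R)
            ≤ (Real.toNNReal (R / r₀) : ENNReal) * ENNReal.ofReal (δ n * r₀ / R) := by
              gcongr
              exact (measure_mono inter_subset_left).trans (hQv n)
          _ = ENNReal.ofReal (R / r₀) * ENNReal.ofReal (δ n * r₀ / R) := rfl
          _ = ENNReal.ofReal (δ n) := by
              rw [← ENNReal.ofReal_mul (by positivity)]
              congr 1
              field_simp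
      refine le_trans (measure_mono ?_) (hδ n A hAc.measurableSet hAv)
      intro ω hω
      obtain ⟨-, h2, h3⟩ := hω
      refine ⟨‖r • (ω : E d) + p‖, ⟨h2, norm_nonneg _, h3⟩, ?_⟩
      have hω1 : ‖(ω : E d)‖ = 1 := by simp
      have e1 : ‖r • (ω : E d) + p‖ ^ 2 = r ^ 2 + 2 * r * (ω : E d) j + 1 := by
        rw [norm_add_sq_real, norm_smul, hω1, hp, inner_smul_left]
        have : inner ℝ (ω : E d) p = (ω : E d) j := by
          simp [p, EuclideanSpace.inner_single_right]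
        rw [this]
        simp only [Real.norm_eq_abs, mul_one, sq_abs, conj_trivial]
        ring
      show (‖r • (ω : E d) + p‖ ^ 2 - 1 - r ^ 2) / (2 * r) = (ω : E d) j
      rw [e1]
      field_simp
      ring
    · rintro y ⟨hy1, hy2, hy3⟩
      obtain ⟨n, hn⟩ := mem_iUnion.1 (hQU hy2)
      exact mem_iUnion.2 ⟨n, hy1, hn, hy3⟩
  calc μ (Metric.closedBall 0 r₀) + μ U ≤ ENNReal.ofReal (ε / 2) + ENNReal.ofReal (ε / 2) :=
        add_le_add (hr₀s 0) hUs
    _ = ENNReal.ofReal ε := by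
        rw [← ENNReal.ofReal_add (by positivity) (by positivity)]
        congr 1
        ring

/-- absolute continuity on balls -/
theorem ac (hdr : P_drain) (hb : P_basic) (hex : P_exh) (hsc : P_scd) (hpo : P_polar) (k : ℕ)
    (g : Fin k → Iso d) (C : ℝ) (hd : 2 ≤ d) (hC : 0 < C) (hf : Flow d k g C) (h : IsInv d μ) :
    AC d μ := by
  intro R₁ ε hε
  have hd1 : 1 ≤ d := by omega
  obtain ⟨hmono, hfin, hsmall⟩ := hb d hd1 μ h
  set R : ℝ := max R₁ 1 with hRdef
  have hR : 0 < R := lt_of_lt_of_le one_pos (le_max_right _ _)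
  obtain ⟨r₁, hr₁, hr₁s⟩ := hsmall (ε / 3) (by positivity)
  set r₀ : ℝ := min r₁ R with hr₀def
  have hr₀ : 0 < r₀ := lt_min hr₁ hR
  have hr₀R : r₀ ≤ R := min_le_right _ _
  have hr₀s : μ (Metric.closedBall 0 r₀) ≤ ENNReal.ofReal (ε / 3) :=
    (hmono _ _ Metric.isClosed_closedBall.measurableSet Metric.isClosed_closedBall.measurableSet
      (Metric.closedBall_subset_closedBall (min_le_left _ _))).trans (hr₁s 0)
  obtain ⟨δ, hδ, hrad⟩ := radial hdr hb hex hsc k g C hd hC hf h R (ε / 3) hR (by positivity)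
  obtain ⟨η, hη, H⟩ := thin_mu hdr hb k g C hd1 hC hf h (R + 1) (ε / 3) (by positivity)
  obtain ⟨c, hc, hpol⟩ := hpo d hd1 r₀ R hr₀ hr₀R
  let θ : ℕ → ℝ := fun n => δ * (1 / 2) ^ (n + 2) * η n / c
  have hθ : ∀ n, 0 < θ n := fun n => by have := hη n; positivity
  refine ⟨θ 0, hθ 0, fun U hU hUb hUv => ?_⟩
  have hUu : U ≠ univ := by
    intro hcon
    rw [hcon] at hUb
    have : Nontrivial (E d) := nontriv_E d hd1
    obtain ⟨x, hx⟩ := NormedSpace.exists_lt_norm ℝ (E d) R₁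
    have := hUb (mem_univ x)
    rw [mem_ball_zero_iff] at this
    linarith
  obtain ⟨P, hPc, hPv, hPU⟩ := hex (E d) volume U hU θ hθ hUv hUu
  set Bad : ℕ → Set ℝ := fun n => {r | r₀ ≤ r ∧ r ≤ R ∧ ENNReal.ofReal (η n) < sg d (sl (P n) r)}
    with hBad
  have hBv : ∀ n, volume (Bad n) ≤ ENNReal.ofReal (δ * (1 / 2) ^ (n + 2)) := by
    intro n
    refine (hpol (P n) (η n) (hPc n).measurableSet (hη n)).trans ?_
    calc ENNReal.ofReal (c / η n) * volume (P n)
        ≤ ENNReal.ofReal (c / η n) * ENNReal.ofReal (θ n) := by gcongr; exact hPv n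
      _ = ENNReal.ofReal (δ * (1 / 2) ^ (n + 2)) := by
          have := hη n
          rw [← ENNReal.ofReal_mul (by positivity)]
          congr 1
          show c / η n * (δ * (1 / 2) ^ (n + 2) * η n / c) = _
          field_simp
  have hBt : volume (⋃ n, Bad n) < ENNReal.ofReal δ := by
    have hs : HasSum (fun n : ℕ => δ * (1 / 2 : ℝ) ^ (n + 2)) (δ * (1 / 2)) := by
      have h1 := (hasSum_geometric_two).mul_left (δ * (1 / 4))
      have e : (fun n : ℕ => δ * (1 / 2 : ℝ) ^ (n + 2)) =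
          fun n : ℕ => δ * (1 / 4) * (1 / 2 : ℝ) ^ n := by
        funext n; ring
      have e2 : δ * (1 / 2 : ℝ) = δ * (1 / 4) * 2 := by ring
      rw [e, e2]
      exact h1
    calc volume (⋃ n, Bad n) ≤ ∑' n, volume (Bad n) := measure_iUnion_le _
      _ ≤ ∑' n, ENNReal.ofReal (δ * (1 / 2) ^ (n + 2)) := ENNReal.tsum_le_tsum hBv
      _ = ENNReal.ofReal (δ * (1 / 2)) := by
          rw [← ENNReal.ofReal_tsum_of_nonneg (fun n => by positivity) hs.summable, hs.tsum_eq]
      _ < ENNReal.ofReal δ := by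
          rw [ENNReal.ofReal_lt_ofReal_iff hδ]
          linarith
  obtain ⟨J, hJs, hJo, hJv⟩ := (⋃ n, Bad n).exists_isOpen_lt_of_lt _ hBt
  have hnorm_meas : Measurable (fun y : E d => ‖y‖) := continuous_norm.measurable
  set I : Set ℝ := Icc r₀ R ∩ Jᶜ with hI
  have hIc : IsCompact I := isCompact_Icc.inter_right hJo.isClosed_compl
  set V : Set (E d) := U ∩ {x | ‖x‖ ∈ I} with hV
  have hVm : MeasurableSet V := hU.measurableSet.inter (hnorm_meas hIc.measurableSet)
  have hVs : μ V ≤ ENNReal.ofReal (ε / 3) := by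
    refine H I (fun n => P n ∩ {x | ‖x‖ ∈ I}) hIc (fun r hr => hr₀.trans_le hr.1.1)
      (fun r hr => by have := hr.1.2; linarith) (fun n => ?_) (fun n x hx => hx.2)
      (fun n r hr => ?_) V hVm ?_
    · exact (hPc n).inter (hIc.isClosed.preimage continuous_norm)
    · have hnb : r ∉ Bad n := fun hcon => hr.2 (hJs (mem_iUnion.2 ⟨n, hcon⟩))
      have : ¬ ENNReal.ofReal (η n) < sg d (sl (P n) r) := fun hcon =>
        hnb ⟨hr.1.1, hr.1.2, hcon⟩
      exact (measure_mono (fun ω hω => hω.1)).trans (not_lt.1 this)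
    · rintro x ⟨hx1, hx2⟩
      obtain ⟨n, hn⟩ := mem_iUnion.1 (hPU hx1)
      exact mem_iUnion.2 ⟨n, hn, hx2⟩
  have hWm : MeasurableSet {x : E d | ‖x‖ ∈ J ∧ ‖x‖ ≤ R} :=
    (hnorm_meas hJo.measurableSet).inter (hnorm_meas measurableSet_Iic)
  have hcb : MeasurableSet (Metric.closedBall (0 : E d) r₀) := Metric.isClosed_closedBall.measurableSet
  have hsub : U ⊆ Metric.closedBall 0 r₀ ∪ ({x : E d | ‖x‖ ∈ J ∧ ‖x‖ ≤ R} ∪ V) := by
    intro x hx
    have hxR : ‖x‖ ≤ R := by
      have := hUb hx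
      rw [mem_ball_zero_iff] at this
      exact this.le.trans (le_max_left _ _)
    rcases le_or_gt ‖x‖ r₀ with h1 | h1
    · exact Or.inl (by simpa using h1)
    · refine Or.inr ?_
      by_cases h2 : ‖x‖ ∈ J
      · exact Or.inl ⟨h2, hxR⟩
      · exact Or.inr ⟨hx, ⟨h1.le, hxR⟩, h2⟩
  refine (hmono _ _ hU.measurableSet (hcb.union (hWm.union hVm)) hsub).trans ?_
  refine (h.sub_add hb hd1 hcb (hWm.union hVm)).trans ?_
  calc μ (Metric.closedBall 0 r₀) + μ ({x : E d | ‖x‖ ∈ J ∧ ‖x‖ ≤ R} ∪ V)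
      ≤ ENNReal.ofReal (ε / 3) + (ENNReal.ofReal (ε / 3) + ENNReal.ofReal (ε / 3)) :=
        add_le_add hr₀s ((h.sub_add hb hd1 hWm hVm).trans (add_le_add (hrad J hJo hJv.le) hVs))
    _ = ENNReal.ofReal ε := by
        rw [← ENNReal.ofReal_add (by positivity) (by positivity),
          ← ENNReal.ofReal_add (by positivity) (by positivity)]
        congr 1
        ring

end

end Pool.Agent.H490R3.RZ
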