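import Mathlib
import Pool.Agent.Helper557.Rz.Base
import Pool.Agent.Helper557.Rz.FADefs

set_option autoImplicit false

open MeasureTheory Set

namespace Pool.Agent.H490R3.RZ

open Pool.Agent.Helper557.Rz

/-- slice of `A` by the sphere of radius `r` about the origin, as a subset of the unit sphere -/
def sl {d : ℕ} (A : Set (E d)) (r : ℝ) : Set (S d) := {ω | r • (ω : E d) ∈ A}

/-- `μ` is, on the Borel sets of `E d`, a finitely additive measure with values in `[0, ∞]`,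
invariant under all isometries, with value `1` on the unit cube -/
structure IsInv (d : ℕ) (μ : Set (E d) → ENNReal) : Prop where
  empty : μ ∅ = 0
  add : ∀ A B : Set (E d), MeasurableSet A → MeasurableSet B → Disjoint A B →
    μ (A ∪ B) = μ A + μ B
  inv : ∀ (g : E d ≃ᵢ E d) (A : Set (E d)), MeasurableSet A → μ (g '' A) = μ A
  cube : μ {x : E d | ∀ i, 0 ≤ x i ∧ x i ≤ 1} = 1

/-- absolute continuity on balls -/
def AC (d : ℕ) (μ : Set (E d) → ENNReal) : Prop :=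
  ∀ R ε : ℝ, 0 < ε → ∃ η : ℝ, 0 < η ∧ ∀ U : Set (E d), IsOpen U → U ⊆ Metric.ball 0 R →
    volume U ≤ ENNReal.ofReal η → μ U ≤ ENNReal.ofReal ε

/-- elementary consequences of the axioms -/
def P_basic : Prop := ∀ d : ℕ, 1 ≤ d → ∀ μ : Set (E d) → ENNReal, IsInv d μ →
  (∀ A B : Set (E d), MeasurableSet A → MeasurableSet B → A ⊆ B → μ A ≤ μ B) ∧
  (∀ R : ℝ, μ (Metric.ball (0 : E d) R) ≠ ⊤) ∧
  (∀ ε : ℝ, 0 < ε → ∃ r : ℝ, 0 < r ∧ ∀ p : E d, μ (Metric.closedBall p r) ≤ ENNReal.ofReal ε)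

/-- absolute continuity on balls gives Lebesgue measure on bounded Borel sets -/
def P_final : Prop := ∀ d : ℕ, 1 ≤ d → ∀ μ : Set (E d) → ENNReal, IsInv d μ → AC d μ →
  ∀ A : Set (E d), MeasurableSet A → Bornology.IsBounded A → μ A = volume A

/-- an open set is covered by closed sets of prescribed small measures -/
def P_exh : Prop := ∀ (X : Type) [MetricSpace X] [MeasurableSpace X] [BorelSpace X]
  (μ : Measure X) (U : Set X), IsOpen U → ∀ η : ℕ → ℝ, (∀ k, 0 < η k) →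
  μ U ≤ ENNReal.ofReal (η 0) → U ≠ Set.univ →
  ∃ P : ℕ → Set X, (∀ k, IsClosed (P k)) ∧ (∀ k, μ (P k) ≤ ENNReal.ofReal (η k)) ∧
    U ⊆ ⋃ k, P k

/-- the distribution of a coordinate on the sphere is absolutely continuous -/
def P_scd : Prop := ∀ d : ℕ, 2 ≤ d → ∀ (j : Fin d) (η : ℝ), 0 < η → ∃ δ : ℝ, 0 < δ ∧
  ∀ A : Set ℝ, MeasurableSet A → volume A ≤ ENNReal.ofReal δ →
    sg d {ω : S d | (ω : E d) j ∈ A} ≤ ENNReal.ofReal η

/-- few radii have a thick slice (polar coordinates and Markov) -/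
def P_polar : Prop := ∀ d : ℕ, 1 ≤ d → ∀ r₀ R : ℝ, 0 < r₀ → r₀ ≤ R → ∃ c : ℝ, 0 < c ∧
  ∀ (P : Set (E d)) (η : ℝ), MeasurableSet P → 0 < η →
    volume {r : ℝ | r₀ ≤ r ∧ r ≤ R ∧ ENNReal.ofReal η < sg d (sl P r)} ≤
      ENNReal.ofReal (c / η) * volume P

/-- a closed set all of whose slices with radius in the compact set `I` are thin can be drained
by a bounded measurable flow -/
def P_drain : Prop := ∀ (d k : ℕ) (g : Fin k → Iso d) (C : ℝ), 1 ≤ d → 0 < C → Flow d k g C →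
  ∀ (K : Set (E d)) (I : Set ℝ), IsClosed K → IsCompact I → (∀ r ∈ I, 0 < r) →
    (∀ r ∈ I, sg d (sl K r) ≤ ENNReal.ofReal (1 / 8)) →
    ∃ F : Fin k → E d → ℝ, (∀ i, Measurable (F i)) ∧ (∀ i x, |F i x| ≤ 2 * C) ∧
      ∀ x ∈ K, ‖x‖ ∈ I → ∑ i, (F i (g i x) - F i x) ≤ -1

end Pool.Agent.H490R3.RZ
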