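import Pool.Agent.H490R3.RZ.Abs
import Pool.Agent.H490R3.RZ.Stmts

set_option autoImplicit false

open MeasureTheory Set

namespace Pool.Agent.H490R3.RZ

open Pool.Agent.Helper557.Rz

/-- a linear isometry as a measurable equivalence -/
noncomputable def me {d : ℕ} (g : Iso d) : E d ≃ᵐ E d := g.toHomeomorph.toMeasurableEquiv

lemma me_apply {d : ℕ} (g : Iso d) (x : E d) : me g x = g x := rfl

lemma me_symm_apply {d : ℕ} (g : Iso d) (x : E d) : (me g).symm x = g.symm x := rfl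

lemma sl_pre {d : ℕ} (g : Iso d) (A : Set (E d)) (r : ℝ) :
    sl (me g ⁻¹' A) r = rot g ⁻¹' (sl A r) := by
  ext ω
  simp only [sl, mem_preimage, mem_setOf_eq, me_apply, rot_coe, map_smul]

lemma sl_pre_symm {d : ℕ} (g : Iso d) (A : Set (E d)) (r : ℝ) :
    sl ((me g).symm ⁻¹' A) r = rot g⁻¹ ⁻¹' (sl A r) := by
  ext ω
  simp only [sl, mem_preimage, mem_setOf_eq, me_symm_apply, rot_coe, map_smul]
  rfl

lemma sl_union {d : ℕ} (A B : Set (E d)) (r : ℝ) : sl (A ∪ B) r = sl A r ∪ sl B r := rfl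

lemma sl_iUnion {d : ℕ} {ι : Type} (A : ι → Set (E d)) (r : ℝ) :
    sl (⋃ i, A i) r = ⋃ i, sl (A i) r := by
  ext ω
  simp [sl]

lemma sl_cont {d : ℕ} (r : ℝ) : Continuous (fun ω : S d => r • (ω : E d)) :=
  continuous_subtype_val.const_smul r

lemma sl_closed {d : ℕ} {A : Set (E d)} (hA : IsClosed A) (r : ℝ) : IsClosed (sl A r) :=
  hA.preimage (sl_cont r)

lemma sl_meas {d : ℕ} {A : Set (E d)} (hA : MeasurableSet A) (r : ℝ) : MeasurableSet (sl A r) :=
  (sl_cont r).measurable hA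

theorem aT_closed {d k : ℕ} (g : Fin k → Iso d) (P : Set (E d)) (hP : IsClosed P) (s : ℕ) :
    IsClosed (aT (fun i => me (g i)) P s) := by
  induction s with
  | zero => exact hP
  | succ s ih =>
    refine ih.union (isClosed_iUnion_of_finite (fun i => ?_))
    exact (ih.preimage (g i).symm.continuous).union (ih.preimage (g i).continuous)

theorem aT_norm {d k : ℕ} (g : Fin k → Iso d) (P : Set (E d)) (I : Set ℝ)
    (hP : ∀ x ∈ P, ‖x‖ ∈ I) (s : ℕ) : ∀ x ∈ aT (fun i => me (g i)) P s, ‖x‖ ∈ I := by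
  induction s with
  | zero => exact hP
  | succ s ih =>
    intro x hx
    rcases hx with hx | hx
    · exact ih x hx
    · obtain ⟨i, hx⟩ := mem_iUnion.1 hx
      rcases hx with hx | hx
      · have := ih _ hx
        rwa [me_symm_apply, LinearIsometryEquiv.norm_map] at this
      · have := ih _ hx
        rwa [me_apply, LinearIsometryEquiv.norm_map] at this

theorem aT_sl {d k : ℕ} (hd : 1 ≤ d) (g : Fin k → Iso d) (P : Set (E d)) (hP : IsClosed P)
    (r : ℝ) (s : ℕ) : sg d (sl (aT (fun i => me (g i)) P s) r) ≤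
      ((1 + 2 * k : ℕ) : ENNReal) ^ s * sg d (sl P r) := by
  induction s with
  | zero => simp [aT]
  | succ s ih =>
    set A := aT (fun i => me (g i)) P s with hAdef
    have hA : MeasurableSet (sl A r) := (sl_closed (aT_closed g P hP s) r).measurableSet
    have e : sl (aT (fun i => me (g i)) P (s + 1)) r =
        sl A r ∪ ⋃ i, (rot (g i)⁻¹ ⁻¹' (sl A r) ∪ rot (g i) ⁻¹' (sl A r)) := by
      show sl (A ∪ ⋃ i, ((me (g i)).symm ⁻¹' A ∪ me (g i) ⁻¹' A)) r = _
      rw [sl_union, sl_iUnion]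
      congr 1
      refine iUnion_congr (fun i => ?_)
      rw [sl_union, sl_pre, sl_pre_symm]
    rw [e]
    calc sg d (sl A r ∪ ⋃ i, (rot (g i)⁻¹ ⁻¹' (sl A r) ∪ rot (g i) ⁻¹' (sl A r)))
        ≤ sg d (sl A r) + sg d (⋃ i, (rot (g i)⁻¹ ⁻¹' (sl A r) ∪
            rot (g i) ⁻¹' (sl A r))) := measure_union_le _ _
      _ ≤ sg d (sl A r) + ∑ i, sg d (rot (g i)⁻¹ ⁻¹' (sl A r) ∪
            rot (g i) ⁻¹' (sl A r)) := by
          gcongr
          exact measure_iUnion_fintype_le _ _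
      _ ≤ sg d (sl A r) + ∑ _i : Fin k, (sg d (sl A r) + sg d (sl A r)) := by
          gcongr with i
          refine (measure_union_le _ _).trans ?_
          rw [(rot_mp d hd (g i)⁻¹).measure_preimage hA.nullMeasurableSet,
            (rot_mp d hd (g i)).measure_preimage hA.nullMeasurableSet]
      _ = ((1 + 2 * k : ℕ) : ENNReal) * sg d (sl A r) := by
          rw [Finset.sum_const, Finset.card_univ, Fintype.card_fin, nsmul_eq_mul]
          push_cast
          ring
      _ ≤ ((1 + 2 * k : ℕ) : ENNReal) * (((1 + 2 * k : ℕ) : ENNReal) ^ s * sg d (sl P r)) := by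
          gcongr
      _ = ((1 + 2 * k : ℕ) : ENNReal) ^ (s + 1) * sg d (sl P r) := by ring

/-- the slice version of the gluing lemma -/
theorem thin (hdr : P_drain) (d k : ℕ) (g : Fin k → Iso d) (C : ℝ) (hd : 1 ≤ d) (hC : 0 < C)
    (hf : Flow d k g C) (ε : ℝ) (hε : 0 < ε) :
    ∃ η : ℕ → ℝ, (∀ n, 0 < η n) ∧ ∀ (I : Set ℝ) (P : ℕ → Set (E d)), IsCompact I →
      (∀ r ∈ I, 0 < r) → (∀ n, IsClosed (P n)) → (∀ n, ∀ x ∈ P n, ‖x‖ ∈ I) →
      (∀ n, ∀ r ∈ I, sg d (sl (P n) r) ≤ ENNReal.ofReal (η n)) →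
      ∀ m : Set (E d) → ℝ, (∀ A, MeasurableSet A → 0 ≤ m A) →
        (∀ A B, MeasurableSet A → MeasurableSet B → Disjoint A B → m (A ∪ B) = m A + m B) →
        (∀ (h : Iso d) (A : Set (E d)), MeasurableSet A → m (h ⁻¹' A) = m A) →
        ∀ U : Set (E d), MeasurableSet U → U ⊆ ⋃ n, P n → m U ≤ ε * m univ := by
  obtain ⟨N, hN1, hNs⟩ := exists_N8881 (2 * k * (2 * C)) ε (by positivity) hε
  let q : ℝ := 1 + 2 * k
  have hq : 1 ≤ q := by
    show (1 : ℝ) ≤ 1 + 2 * k
    have : (0 : ℝ) ≤ k := Nat.cast_nonneg k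
    linarith
  have hq0 : 0 < q := by linarith
  let η : ℕ → ℝ := fun n => (1 / 8) / q ^ (N n)
  have hη : ∀ n, 0 < η n := fun n => by positivity
  refine ⟨η, hη, fun I P hI hI0 hPc hPI hPm m hmn hma hmi U hU hPU => ?_⟩
  have hKm : ∀ n, ∀ r ∈ I, sg d (sl (aT (fun i => me (g i)) (P n) (N n)) r) ≤
      ENNReal.ofReal (1 / 8) := by
    intro n r hr
    refine (aT_sl hd g (P n) (hPc n) r (N n)).trans ?_
    have e1 : ((1 + 2 * k : ℕ) : ENNReal) ^ (N n) = ENNReal.ofReal (q ^ (N n)) := by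
      rw [ENNReal.ofReal_pow hq0.le]
      congr 1
      rw [← ENNReal.ofReal_natCast]
      congr 1
      push_cast
      rfl
    calc ((1 + 2 * k : ℕ) : ENNReal) ^ (N n) * sg d (sl (P n) r)
        ≤ ENNReal.ofReal (q ^ (N n)) * ENNReal.ofReal (η n) := by
          rw [e1]
          gcongr
          exact hPm n r hr
      _ = ENNReal.ofReal (1 / 8) := by
          rw [← ENNReal.ofReal_mul (by positivity)]
          congr 1
          show q ^ N n * ((1 / 8) / q ^ N n) = 1 / 8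
          field_simp
  choose F hFm hFC hFK using fun n => hdr d k g C hd hC hf
    (aT (fun i => me (g i)) (P n) (N n)) I (aT_closed g (P n) (hPc n) (N n)) hI hI0 (hKm n)
  refine abs_glue k (fun i => me (g i)) (2 * C) (by positivity) m hmn hma
    (fun i A hA => hmi (g i) A hA) ε N hN1 hNs P (fun n => (hPc n).measurableSet) U hU hPU F hFm
    hFC (fun n x hx => ?_)
  exact hFK n x hx (aT_norm g (P n) I (hPI n) (N n) x hx)

end Pool.Agent.H490R3.RZ
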